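import Mathlib
import Pool.Agent.K4H74.SC.Core
import Pool.Agent.J4.H58.BSD.Fun

/-!
# Artin twists of eigenforms and the Galois modules: the definitions

The definitions of the Galois groups, of the characters and of `χ(p^n)` (`frobMean`) are in
`Pool.Agent.K4H74.SC.Core`.
-/

set_option autoImplicit false
set_option linter.unusedSectionVars false

namespace Pool.Agent.J4.H58.TP

open NumberField Pool.Agent.K4H74.SK
open scoped MatrixGroups ModularForm

section form

/-- A normalised cuspidal eigenform `f = ∑ a_n q^n` of weight `k ≥ 2`, level `N` and character `ε`: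
`f` is in `S_k(Γ₁(N))`, it is in `S_k(N, ε)`, and its coefficients have the properties which
characterise the normalised eigenforms of all Hecke operators. -/
structure Eigenform where
  /-- the level -/
  N : ℕ
  /-- the weight -/
  k : ℕ
  [hN : NeZero N]
  two_le : 2 ≤ k
  /-- the nebentypus -/
  ε : DirichletCharacter ℂ N
  /-- the modular form -/
  f : CuspForm ((CongruenceSubgroup.Gamma1 N).map (Matrix.SpecialLinearGroup.mapGL ℝ)) k
  slash : ∀ γ : SL(2, ℤ), γ ∈ CongruenceSubgroup.Gamma0 N →
    (f : UpperHalfPlane → ℂ) ∣[(k : ℤ)] γ = ε (γ 1 1 : ZMod N) • (f : UpperHalfPlane → ℂ)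
  one : (UpperHalfPlane.qExpansion 1 f).coeff 1 = 1
  mul : ∀ m n : ℕ, m.Coprime n → (UpperHalfPlane.qExpansion 1 f).coeff (m * n) =
    (UpperHalfPlane.qExpansion 1 f).coeff m * (UpperHalfPlane.qExpansion 1 f).coeff n
  pow : ∀ p j : ℕ, p.Prime → (UpperHalfPlane.qExpansion 1 f).coeff (p ^ (j + 2)) =
    (UpperHalfPlane.qExpansion 1 f).coeff p * (UpperHalfPlane.qExpansion 1 f).coeff (p ^ (j + 1))
      - ε p * (p : ℂ) ^ (k - 1) * (UpperHalfPlane.qExpansion 1 f).coeff (p ^ j)

variable (f : Eigenform)

/-- The Fourier coefficient `a_n`. -/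
noncomputable def coef (n : ℕ) : ℂ := (UpperHalfPlane.qExpansion 1 f.f).coeff n

/-- `α ^ j + β ^ j`, for the eigenvalues `α`, `β` of the Frobenius at `p` on `V_f`: the roots of
`x² - a_p x + ε(p) p^(k-1)`. -/
noncomputable def frobTr (p : ℕ) : ℕ → ℂ
  | 0 => 2
  | 1 => coef f p
  | (j + 2) => coef f p * frobTr p (j + 1) - f.ε p * (p : ℂ) ^ (f.k - 1) * frobTr p j

open Classical in
/-- The trace of the `j`-th power of the Frobenius at `p` on `V_f` for a prime power `q = p ^ j` if
`p` does not divide the level, and `0` otherwise. -/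
noncomputable def tr (q : ℕ) : ℂ :=
  if q.minFac ∣ f.N then 0 else frobTr f q.minFac (q.factorization q.minFac)

/-- The term `tr(N(p)^n) χ(p^n) / (n N(p)^(n s))` of the logarithm of the L-function
`L(f ⊗ χ, s) = L(V_f ⊗ V_χ, s)` over `K`, for a character `χ` of the Galois group of `L / K`; the
Euler factors at the primes above the level of `f` are removed (at `s = k / 2` they are finite and
not `0`). -/
noncomputable def fTerm (s : ℂ) {E : Ext} (χ : G E → ℂ) (x : Pr E × ℕ+) : ℂ :=
  tr f (Ideal.absNorm x.1.1 ^ (x.2 : ℕ)) * ((Ideal.absNorm x.1.1 ^ (x.2 : ℕ) : ℕ) : ℂ) ^ (-s)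
    * frobMean χ x.1.1 x.2 / (x.2 : ℕ)

/-- `F` is a meromorphic continuation of `L(f ⊗ χ, s)` to `ℂ`. -/
def IsL {E : Ext} (χ : G E → ℂ) (F : ℂ → ℂ) : Prop :=
  (∀ z, MeromorphicAt F z) ∧
    ∀ s : ℂ, (f.k : ℝ) / 2 + 1 < s.re → ∃ l : ℂ, HasSum (fTerm f s χ) l ∧ F s = Complex.exp l

end form

section module

/-- A functor `L ↦ V(L)` from the number fields to the finite-dimensional complex vector spaces
with Galois descent: homomorphisms of fields `L → N` give injective linear maps `V(L) → V(N)`, and
for a Galois extension `N / L` the image of `V(L)` in `V(N)` is the space of the invariants of the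
Galois group. -/
structure GalFun where
  /-- the vector space `V(L)` -/
  V : ∀ (L : Type) [Field L] [NumberField L], Type
  [ag : ∀ (L : Type) [Field L] [NumberField L], AddCommGroup (V L)]
  [mo : ∀ (L : Type) [Field L] [NumberField L], Module ℂ (V L)]
  [fd : ∀ (L : Type) [Field L] [NumberField L], FiniteDimensional ℂ (V L)]
  /-- the linear map `V(L) → V(N)` -/
  map : ∀ {L N : Type} [Field L] [NumberField L] [Field N] [NumberField N],
    (L →+* N) → V L →ₗ[ℂ] V N
  map_id : ∀ (L : Type) [Field L] [NumberField L], map (RingHom.id L) = LinearMap.id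
  map_comp : ∀ {L N P : Type} [Field L] [NumberField L] [Field N] [NumberField N] [Field P]
    [NumberField P] (f : L →+* N) (g : N →+* P), map (g.comp f) = map g ∘ₗ map f
  inj : ∀ {L N : Type} [Field L] [NumberField L] [Field N] [NumberField N] (f : L →+* N),
    Function.Injective (map f)
  desc : ∀ (L N : Type) [Field L] [NumberField L] [Field N] [NumberField N] [Algebra L N]
    [IsGalois L N] (b : V N), (∀ h : N ≃ₐ[L] N, map (h : N →+* N) b = b) →
      ∃ a : V L, map (algebraMap L N) a = b

attribute [instance] GalFun.ag GalFun.mo GalFun.fd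

/-- `m` is the multiplicity of the character `χ` of the Galois group `G` of `L / K` in `V(L)`, the
dimension of `Hom_G(V_χ, V(L))`: `m = |G|⁻¹ ∑ χ(g⁻¹) tr(g)`. -/
def IsMult (V : GalFun) {E : Ext} (χ : G E → ℂ) (m : ℕ) : Prop :=
  (m : ℂ) = (Nat.card (G E) : ℂ)⁻¹ *
    ∑ᶠ g : G E, χ g⁻¹ * LinearMap.trace ℂ (V.V E.L) (V.map (emb g))

end module

/-- Beilinson's formula for `f ⊗ χ` and `V`: the function `L(f ⊗ χ, s)` has a meromorphic
continuation to `ℂ`, and its order at `s = k / 2` is the multiplicity of `χ` in `V(L)`. -/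
def Beilinson (f : Eigenform) (V : GalFun) {E : Ext} (χ : G E → ℂ) : Prop :=
  ∃ (F : ℂ → ℂ) (m : ℕ), IsL f χ F ∧ IsMult V χ m ∧
    meromorphicOrderAt F ((f.k : ℂ) / 2) = m

end Pool.Agent.J4.H58.TP
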