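import Mathlib
import Pool.Agent.J4.H58.TP.Defs
import Pool.Agent.J4.H58.DEL.Ser

/-!
# Convergence of the twisted L-series of an eigenform
-/

set_option autoImplicit false
set_option linter.unusedSectionVars false

namespace Pool.Agent.J4.H58.TP

open NumberField Pool.Agent.K4H74 Pool.Agent.K4H74.ST Pool.Agent.K4H74.SK Pool.Agent.J4.H58.DEL
open scoped MatrixGroups ModularForm

variable (f : Eigenform)

lemma coef_one : coef f 1 = 1 := f.one

lemma coef_pow (p j : ℕ) (hp : p.Prime) : coef f (p ^ (j + 2)) =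
    coef f p * coef f (p ^ (j + 1)) - f.ε p * (p : ℂ) ^ (f.k - 1) * coef f (p ^ j) :=
  f.pow p j hp

/-- Hecke's bound -/
lemma coef_bound : ∃ C : ℝ, 0 ≤ C ∧ ∀ n : ℕ, 0 < n →
    ‖coef f n‖ ≤ C * (n : ℝ) ^ ((f.k : ℝ) / 2) := by
  have := f.hN
  have h1 := CuspFormClass.qExpansion_isBigO f.f
  have hT : ModularGroup.T ∈ CongruenceSubgroup.Gamma1 f.N := by
    rw [CongruenceSubgroup.Gamma1_mem]
    simp [ModularGroup.T]
  rw [Subgroup.strictWidthInfty_eq_one_of_T_mem hT] at h1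
  obtain ⟨C, hC0, hC⟩ := h1.exists_pos
  rw [Asymptotics.isBigOWith_iff, Filter.eventually_atTop] at hC
  obtain ⟨n₀, hn₀⟩ := hC
  refine ⟨C + ∑ n ∈ Finset.range n₀, ‖coef f n‖, ?_, fun n hn => ?_⟩
  · have h2 : 0 ≤ ∑ n ∈ Finset.range n₀, ‖coef f n‖ := Finset.sum_nonneg fun n _ => norm_nonneg _
    linarith
  · have hn1 : (1 : ℝ) ≤ (n : ℝ) ^ ((f.k : ℝ) / 2) :=
      Real.one_le_rpow (by exact_mod_cast hn) (by positivity)
    have h2 : 0 ≤ ∑ n ∈ Finset.range n₀, ‖coef f n‖ := Finset.sum_nonneg fun n _ => norm_nonneg _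
    rcases le_or_gt n₀ n with h | h
    · have h3 := hn₀ n h
      rw [Real.norm_of_nonneg (by positivity)] at h3
      have h4 : ((f.k : ℤ) : ℝ) = f.k := by push_cast; rfl
      rw [h4] at h3
      refine h3.trans ?_
      have h5 : 0 ≤ (∑ n ∈ Finset.range n₀, ‖coef f n‖) * (n : ℝ) ^ ((f.k : ℝ) / 2) := by
        positivity
      rw [add_mul]
      linarith
    · have h3 : ‖coef f n‖ ≤ ∑ n ∈ Finset.range n₀, ‖coef f n‖ :=
        Finset.single_le_sum (f := fun n => ‖coef f n‖) (fun i _ => norm_nonneg _)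
          (Finset.mem_range.mpr h)
      refine h3.trans ?_
      rw [add_mul]
      have h5 : 0 ≤ C * (n : ℝ) ^ ((f.k : ℝ) / 2) := by positivity
      have h6 : (∑ n ∈ Finset.range n₀, ‖coef f n‖) * 1 ≤
          (∑ n ∈ Finset.range n₀, ‖coef f n‖) * (n : ℝ) ^ ((f.k : ℝ) / 2) :=
        mul_le_mul_of_nonneg_left hn1 h2
      linarith

lemma frobTr_eq {p : ℕ} (hp : p.Prime) (j : ℕ) : frobTr f p (j + 2) =
    coef f (p ^ (j + 2)) - f.ε p * (p : ℂ) ^ (f.k - 1) * coef f (p ^ j) := by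
  induction j using Nat.strong_induction_on with
  | _ j ih =>
    match j, ih with
    | 0, _ =>
      rw [coef_pow f p 0 hp, frobTr, frobTr, frobTr, pow_zero, zero_add, pow_one, coef_one]
      ring
    | 1, _ =>
      have e1 : frobTr f p (1 + 2) = coef f p *
          (coef f p * coef f p - f.ε p * (p : ℂ) ^ (f.k - 1) * 2)
            - f.ε p * (p : ℂ) ^ (f.k - 1) * coef f p := rfl
      rw [e1, coef_pow f p 1 hp, coef_pow f p 0 hp, pow_zero, zero_add, pow_one, coef_one]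
      ring
    | (j + 2), ih =>
      have h1 := ih (j + 1) (by omega)
      have h2 := ih j (by omega)
      have e1 : frobTr f p (j + 2 + 2) = coef f p * frobTr f p (j + 1 + 2)
        - f.ε p * (p : ℂ) ^ (f.k - 1) * frobTr f p (j + 2) := rfl
      have e2 := coef_pow f p (j + 2) hp
      have e3 := coef_pow f p j hp
      rw [e1, h1, h2, e2]
      have e4 : coef f (p ^ (j + 2 + 1)) = coef f (p ^ (j + 1 + 2)) := rfl
      rw [e4]
      linear_combination (f.ε p * (p : ℂ) ^ (f.k - 1)) * e3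

lemma eps_norm_le (p : ℕ) : ‖f.ε p‖ ≤ 1 := DirichletCharacter.norm_le_one f.ε p

lemma frobTr_bound : ∃ C : ℝ, 0 ≤ C ∧ ∀ p j : ℕ, p.Prime → 0 < j →
    ‖frobTr f p j‖ ≤ C * ((p ^ j : ℕ) : ℝ) ^ ((f.k : ℝ) / 2) := by
  obtain ⟨C, hC0, hC⟩ := coef_bound f
  refine ⟨2 * C, by positivity, fun p j hp hj => ?_⟩
  match j, hj with
  | 1, _ =>
    have h1 := hC p hp.pos
    rw [frobTr, pow_one]
    have h2 : 0 ≤ C * (p : ℝ) ^ ((f.k : ℝ) / 2) := by positivity
    linarith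
  | (j + 2), _ =>
    rw [frobTr_eq f hp]
    have h1 := hC (p ^ (j + 2)) (pow_pos hp.pos _)
    have h2 := hC (p ^ j) (pow_pos hp.pos _)
    have hp0 : (0 : ℝ) < p := by exact_mod_cast hp.pos
    have h3 : ‖f.ε p * (p : ℂ) ^ (f.k - 1) * coef f (p ^ j)‖
        ≤ C * ((p ^ (j + 2) : ℕ) : ℝ) ^ ((f.k : ℝ) / 2) := by
      rw [norm_mul, norm_mul, norm_pow, Complex.norm_natCast]
      have h4 : ‖f.ε p‖ * (p : ℝ) ^ (f.k - 1) ≤ (p : ℝ) ^ f.k := by
        have h5 : (p : ℝ) ^ (f.k - 1) ≤ (p : ℝ) ^ f.k :=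
          pow_le_pow_right₀ (by exact_mod_cast hp.one_lt.le) (by omega)
        calc ‖f.ε p‖ * (p : ℝ) ^ (f.k - 1) ≤ 1 * (p : ℝ) ^ (f.k - 1) :=
              mul_le_mul_of_nonneg_right (eps_norm_le f p) (by positivity)
          _ = (p : ℝ) ^ (f.k - 1) := one_mul _
          _ ≤ _ := h5
      refine (mul_le_mul h4 h2 (norm_nonneg _) (by positivity)).trans (le_of_eq ?_)
      have h6 : ((p ^ (j + 2) : ℕ) : ℝ) ^ ((f.k : ℝ) / 2)
          = (p : ℝ) ^ f.k * ((p ^ j : ℕ) : ℝ) ^ ((f.k : ℝ) / 2) := by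
        push_cast
        rw [pow_add, Real.mul_rpow (by positivity) (by positivity), mul_comm]
        congr 1
        rw [← Real.rpow_natCast (p : ℝ) 2, ← Real.rpow_mul hp0.le, ← Real.rpow_natCast]
        congr 1
        push_cast
        ring
      rw [h6]
      ring
    refine (norm_sub_le _ _).trans ?_
    linarith

lemma tr_bound : ∃ C : ℝ, 0 ≤ C ∧ ∀ q : ℕ, IsPrimePow q →
    ‖tr f q‖ ≤ C * (q : ℝ) ^ ((f.k : ℝ) / 2) := by
  obtain ⟨C, hC0, hC⟩ := frobTr_bound f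
  refine ⟨C, hC0, fun q hq => ?_⟩
  obtain ⟨p, j, hp, hj, rfl⟩ := (isPrimePow_nat_iff q).mp hq
  rw [tr]
  split_ifs with h
  · rw [norm_zero]
    positivity
  · have h1 : (p ^ j).minFac = p := hp.pow_minFac hj.ne'
    have h2 : (p ^ j).factorization p = j := by
      rw [hp.factorization_pow, Finsupp.single_eq_same]
    rw [h1, h2]
    exact hC p j hp hj

/-- the weights -/
noncomputable def fw (s : ℂ) (q : ℕ) : ℂ := tr f q * (q : ℂ) ^ (-s)

lemma fw_adm {s : ℂ} (hs : (f.k : ℝ) / 2 + 1 < s.re) : Adm (fw f s) := by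
  obtain ⟨C, hC0, hC⟩ := tr_bound f
  refine ⟨C, s.re - ((f.k : ℝ) / 2 + 1), by linarith, fun q hq => ?_⟩
  have hq0 : (0 : ℝ) < q := by exact_mod_cast hq.pos
  rw [fw, norm_mul, Complex.norm_natCast_cpow_of_pos hq.pos]
  refine (mul_le_mul_of_nonneg_right (hC q hq) (Real.rpow_nonneg hq0.le _)).trans (le_of_eq ?_)
  rw [mul_assoc, ← Real.rpow_add hq0]
  congr 2
  rw [Complex.neg_re]
  ring

lemma hasSum_fTerm {s : ℂ} {E : Ext} {χ : G E → ℂ} {l : ℂ} :
    HasSum (fTerm f s χ) l ↔ HasSum (wTerm E.K E.L χ (fw f s)) l := by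
  have h1 : fTerm f s χ = wTerm E.K E.L χ (fw f s)
      ∘ ((prEquiv E).prodCongr (Equiv.refl ℕ+)) := by
    funext x
    rw [fTerm, frobMean_eq]
    rfl
  rw [h1]
  exact ((prEquiv E).prodCongr (Equiv.refl ℕ+)).hasSum_iff

lemma fTerm_summable {s : ℂ} (hs : (f.k : ℝ) / 2 + 1 < s.re) {E : Ext} (χ : G E → ℂ) :
    ∃ l, HasSum (fTerm f s χ) l :=
  ⟨_, (hasSum_fTerm f).mpr (wTerm_summable χ (fw_adm f hs)).hasSum⟩

end Pool.Agent.J4.H58.TP
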