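import Mathlib
import Pool.Agent.J4.H58.TP.Wt
import Pool.Agent.J4.H58.BSD.Ana

/-!
# The multiplicities and the L-series of the twists of eigenforms together
-/

set_option autoImplicit false
set_option linter.unusedSectionVars false

namespace Pool.Agent.J4.H58.TP

open NumberField Pool.Agent.K4H74 Pool.Agent.K4H74.ST Pool.Agent.K4H74.SK Pool.Agent.K4H34.AL
  Pool.Agent.J4.H58.DEL Pool.Agent.J4.H58.BSD Filter Topology

/-- the functor -/
def toG (V : GalFun) : GFun where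
  X := V.V
  ag := V.ag
  mo := V.mo
  fd := V.fd
  map _ _ _ _ _ _ f := V.map f
  map_id := V.map_id
  map_comp _ _ _ _ _ _ _ _ _ f g := V.map_comp f g
  inj _ _ _ _ _ _ f := V.inj f
  desc := V.desc

lemma isMult_iff {V : GalFun} {E : Ext} {χ : G E → ℂ} {m : ℕ} :
    IsMult V χ m ↔ mul (toG V) E.K (show (E.L ≃ₐ[E.K] E.L) → ℂ from χ) = m := by
  classical
  have hfin : Finite (G E) := inferInstanceAs (Finite (E.L ≃ₐ[E.K] E.L))
  have : Fintype (G E) := Fintype.ofFinite _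
  have : Fintype (E.L ≃ₐ[E.K] E.L) := Fintype.ofFinite _
  have key : (Nat.card (G E) : ℂ)⁻¹ *
      ∑ᶠ g : G E, χ g⁻¹ * LinearMap.trace ℂ (V.V E.L) (V.map (emb g))
      = mul (toG V) E.K (show (E.L ≃ₐ[E.K] E.L) → ℂ from χ) := by
    rw [mul]
    congr 1
    rw [← finsum_comp_equiv (Equiv.inv (E.L ≃ₐ[E.K] E.L))]
    refine finsum_congr fun g => ?_
    let g' : E.L ≃ₐ[E.K] E.L := g
    have h1 : (g'⁻¹)⁻¹ = g' := inv_inv _
    exact congrArg (fun z : E.L ≃ₐ[E.K] E.L => (show (E.L ≃ₐ[E.K] E.L) → ℂ from χ) (g'⁻¹)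
      * LinearMap.trace ℂ ((toG V).X E.L) (gact (toG V) E.K z)) h1.symm
  rw [IsMult, key]
  exact eq_comm

lemma isMult_exists (V : GalFun) {E : Ext} {χ : G E → ℂ} (h : IsChr χ) :
    ∃ m, IsMult V χ m := by
  obtain ⟨m, hm⟩ := mul_nat (toG V) (K := E.K) (L := E.L) (isChr_iff.mp h)
  exact ⟨m, isMult_iff.mpr hm⟩

lemma isMult_unique {V : GalFun} {E : Ext} {χ : G E → ℂ} {m m' : ℕ} (h : IsMult V χ m)
    (h' : IsMult V χ m') : m = m' := by
  have h1 := isMult_iff.mp h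
  rw [isMult_iff.mp h'] at h1
  exact_mod_cast h1.symm

/-- The functor `L ↦ ℂ ⊗ E(L)` for the elliptic curve `E` over `ℚ` with the equation `W`. -/
noncomputable def curveFun (W : WeierstrassCurve ℤ) (hΔ : W.Δ ≠ 0) : GalFun where
  V L _ _ := TensorProduct ℤ ℂ (Pt W L)
  fd := (EF hΔ).fd
  map f := (ptMap W f).toIntLinearMap.baseChange ℂ
  map_id := (EF hΔ).map_id
  map_comp f g := (EF hΔ).map_comp _ _ _ f g
  inj f := (EF hΔ).inj _ _ f
  desc := (EF hΔ).desc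

/-- the multiplicities of the elliptic curves are special cases -/
lemma isMult_curve {W : WeierstrassCurve ℤ} (hΔ : W.Δ ≠ 0) {E : Ext} {χ : G E → ℂ} {m : ℕ} :
    IsMult (curveFun W hΔ) χ m ↔ BSD.IsMult W χ m := by
  rw [isMult_iff, BSD.isMult_iff hΔ]
  rfl

/-- the L-series and the multiplicities -/
noncomputable def tInv {ι : Type} (V : ι → GalFun) :
    ArtinInvariant (Multiplicative ({ω : ℕ → ℂ // Adm ω} → ℂ) × (ι → Multiplicative ℂ)) :=
  prodInv wInv (piInv fun j : ι => mulInv (toG (V j)))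

section rel

variable {ι : Type} {V : ι → GalFun} {n r : ℕ} {y : Pair} {x : Fin r → Pair} {k : Fin r → ℤ}

/-- the relation between the logarithms -/
lemma rel_log (h : pval (tInv V) y ^ n = ∏ i, pval (tInv V) (x i) ^ k i) (f : Eigenform) {s : ℂ}
    (hs : (f.k : ℝ) / 2 + 1 < s.re) {l : ℂ} {l' : Fin r → ℂ} (hl : HasSum (fTerm f s y.2) l)
    (hl' : ∀ i, HasSum (fTerm f s (x i).2) (l' i)) : n * l = ∑ i, k i * l' i := by
  let ev : (Multiplicative ({ω : ℕ → ℂ // Adm ω} → ℂ) × (ι → Multiplicative ℂ))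
      →* Multiplicative ℂ :=
    (AddMonoidHom.toMultiplicative (Pi.evalAddMonoidHom (fun _ : {ω : ℕ → ℂ // Adm ω} => ℂ)
      ⟨fw f s, fw_adm f hs⟩)).comp (MonoidHom.fst _ _)
  have h1 := congrArg (fun z => Multiplicative.toAdd (ev z)) h
  simp only [map_pow, map_prod, map_zpow, toAdd_pow, toAdd_prod, toAdd_zpow] at h1
  have h2 : ∀ z : Pair, ∀ l : ℂ, HasSum (fTerm f s z.2) l →
      Multiplicative.toAdd (ev (pval (tInv V) z)) = l :=
    fun z l hl => ((hasSum_fTerm f).mp hl).tsum_eq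
  rw [h2 y l hl, Finset.sum_congr rfl (fun i _ => by rw [h2 (x i) _ (hl' i)])] at h1
  rw [nsmul_eq_mul] at h1
  rw [h1]
  exact Finset.sum_congr rfl fun i _ => by rw [zsmul_eq_mul]

/-- the relation between the multiplicities -/
lemma rel_mult (h : pval (tInv V) y ^ n = ∏ i, pval (tInv V) (x i) ^ k i) (j : ι) {m : ℕ}
    {m' : Fin r → ℕ} (hm : IsMult (V j) y.2 m) (hm' : ∀ i, IsMult (V j) (x i).2 (m' i)) :
    (n : ℤ) * m = ∑ i, k i * m' i := by
  let ev : (Multiplicative ({ω : ℕ → ℂ // Adm ω} → ℂ) × (ι → Multiplicative ℂ))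
      →* Multiplicative ℂ :=
    (Pi.evalMonoidHom (fun _ : ι => Multiplicative ℂ) j).comp (MonoidHom.snd _ _)
  have h1 := congrArg (fun z => Multiplicative.toAdd (ev z)) h
  simp only [map_pow, map_prod, map_zpow, toAdd_pow, toAdd_prod, toAdd_zpow] at h1
  have h2 : ∀ z : Pair, ∀ m : ℕ, IsMult (V j) z.2 m →
      Multiplicative.toAdd (ev (pval (tInv V) z)) = m :=
    fun z m hm => isMult_iff.mp hm
  rw [h2 y m hm, Finset.sum_congr rfl (fun i _ => by rw [h2 (x i) _ (hm' i)])] at h1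
  rw [nsmul_eq_mul] at h1
  have h3 : (((n : ℤ) * m : ℤ) : ℂ) = ((∑ i, k i * m' i : ℤ) : ℂ) := by
    push_cast
    rw [h1]
    exact Finset.sum_congr rfl fun i _ => by rw [zsmul_eq_mul]
  exact_mod_cast h3

end rel

section ana

/-- the identity theorem -/
lemma eq_near (c : ℝ) {F₁ F₂ : ℂ → ℂ} (h₁ : ∀ z, MeromorphicAt F₁ z)
    (h₂ : ∀ z, MeromorphicAt F₂ z) (h : ∀ s : ℂ, c < s.re → F₁ s = F₂ s) (z : ℂ) :
    F₁ =ᶠ[𝓝[≠] z] F₂ := by
  have h3 : MeromorphicOn (F₁ - F₂) Set.univ := fun z _ => (h₁ z).sub (h₂ z)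
  have h4 : meromorphicOrderAt (F₁ - F₂) ((c + 1 : ℝ) : ℂ) = ⊤ := by
    rw [meromorphicOrderAt_eq_top_iff]
    have h5 : ∀ᶠ s : ℂ in 𝓝 ((c + 1 : ℝ) : ℂ), c < s.re := by
      apply (isOpen_lt continuous_const Complex.continuous_re).mem_nhds
      change c < ((c + 1 : ℝ) : ℂ).re
      rw [Complex.ofReal_re]
      linarith
    filter_upwards [h5.filter_mono nhdsWithin_le_nhds] with s hs
    rw [Pi.sub_apply, h s hs, sub_self]
  have h5 : meromorphicOrderAt (F₁ - F₂) z = ⊤ := by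
    by_contra hne
    exact h3.meromorphicOrderAt_ne_top_of_isPreconnected isPreconnected_univ (Set.mem_univ z)
      (Set.mem_univ _) hne h4
  rw [meromorphicOrderAt_eq_top_iff] at h5
  filter_upwards [h5] with s hs
  rw [Pi.sub_apply, sub_eq_zero] at hs
  exact hs

lemma order_eq (c : ℝ) {F₁ F₂ : ℂ → ℂ} (h₁ : ∀ z, MeromorphicAt F₁ z)
    (h₂ : ∀ z, MeromorphicAt F₂ z) (h : ∀ s : ℂ, c < s.re → F₁ s = F₂ s) (z : ℂ) :
    meromorphicOrderAt F₁ z = meromorphicOrderAt F₂ z :=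
  meromorphicOrderAt_congr (eq_near c h₁ h₂ h z)

variable {f : Eigenform}

/-- two continuations have the same order -/
lemma isL_order {E : Ext} {χ : G E → ℂ} {F₁ F₂ : ℂ → ℂ} (h₁ : IsL f χ F₁) (h₂ : IsL f χ F₂)
    (z : ℂ) : meromorphicOrderAt F₁ z = meromorphicOrderAt F₂ z := by
  refine order_eq ((f.k : ℝ) / 2 + 1) h₁.1 h₂.1 (fun s hs => ?_) z
  obtain ⟨l, hl, h3⟩ := h₁.2 s hs
  obtain ⟨l', hl', h4⟩ := h₂.2 s hs
  rw [h3, h4, hl.unique hl']

/-- the order is finite -/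
theorem order_finite {E : Ext} {χ : G E → ℂ} {F : ℂ → ℂ} (hF : IsL f χ F) (z : ℂ) :
    ∃ a : ℤ, meromorphicOrderAt F z = a := by
  have h : meromorphicOrderAt F z ≠ ⊤ := by
    have h3 : MeromorphicOn F Set.univ := fun z _ => hF.1 z
    refine h3.meromorphicOrderAt_ne_top_of_isPreconnected isPreconnected_univ
        (Set.mem_univ (((f.k : ℝ) / 2 + 2 : ℝ) : ℂ)) (Set.mem_univ z) fun h4 => ?_
    rw [meromorphicOrderAt_eq_top_iff] at h4
    have h5 : ∀ᶠ s : ℂ in 𝓝 (((f.k : ℝ) / 2 + 2 : ℝ) : ℂ), (f.k : ℝ) / 2 + 1 < s.re := by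
      apply (isOpen_lt continuous_const Complex.continuous_re).mem_nhds
      change (f.k : ℝ) / 2 + 1 < (((f.k : ℝ) / 2 + 2 : ℝ) : ℂ).re
      rw [Complex.ofReal_re]
      linarith
    have h6 : ∀ᶠ s : ℂ in 𝓝[≠] (((f.k : ℝ) / 2 + 2 : ℝ) : ℂ), False := by
      filter_upwards [h5.filter_mono nhdsWithin_le_nhds, h4] with s hs h0
      obtain ⟨l, -, h7⟩ := hF.2 s hs
      rw [h7] at h0
      exact Complex.exp_ne_zero _ h0
    exact (Filter.eventually_false_iff_eq_bot.mp h6 ▸ (inferInstance :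
      (𝓝[≠] (((f.k : ℝ) / 2 + 2 : ℝ) : ℂ)).NeBot)).ne rfl
  cases h1 : meromorphicOrderAt F z with
  | coe a => exact ⟨a, rfl⟩
  | top => exact absurd h1 h

/-- **the orders.** -/
theorem order_rel {E : Ext} {χ : G E → ℂ} {r : ℕ} {x : Fin r → Pair} {k : Fin r → ℤ}
    (hlog : ∀ s : ℂ, (f.k : ℝ) / 2 + 1 < s.re → ∀ (l : ℂ) (l' : Fin r → ℂ),
      HasSum (fTerm f s χ) l → (∀ i, HasSum (fTerm f s (x i).2) (l' i)) → l = ∑ i, k i * l' i)
    {m' : Fin r → ℤ} {F' : Fin r → ℂ → ℂ} (hF : ∀ i, IsL f (x i).2 (F' i)) {z : ℂ}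
    (hm : ∀ i, meromorphicOrderAt (F' i) z = m' i) :
    ∃ F, IsL f χ F ∧ meromorphicOrderAt F z = ((∑ i, k i * m' i : ℤ) : WithTop ℤ) := by
  refine ⟨prodPow F' k Finset.univ, ⟨fun z => prodPow_mero k _ fun i => (hF i).1 z,
    fun s hs => ?_⟩, prodPow_order _ (fun i => (hF i).1 z) hm⟩
  obtain ⟨l, hl⟩ := fTerm_summable f hs χ
  refine ⟨l, hl, ?_⟩
  choose l' hl' h2 using fun i => (hF i).2 s hs
  rw [hlog s hs l l' hl hl', Complex.exp_sum, prodPow, Finset.prod_apply]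
  refine Finset.prod_congr rfl fun i _ => ?_
  rw [Pi.pow_apply, h2 i, Complex.exp_int_mul]

end ana

/-- the product of two characters -/
lemma isChr_mul {G : Type} [Group G] {χ χ' : G → ℂ} (h : IsChr χ) (h' : IsChr χ') :
    IsChr (fun g => χ g * χ' g) := by
  rw [isChr_iff] at h h' ⊢
  obtain ⟨V, _, _, _, ρ, rfl⟩ := h
  obtain ⟨V', _, _, _, ρ', rfl⟩ := h'
  refine ⟨TensorProduct ℂ V V', inferInstance, inferInstance, inferInstance,
    Representation.tprod ρ ρ', ?_⟩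
  rw [Representation.char_tensor]
  rfl

end Pool.Agent.J4.H58.TP
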